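import Pool.Agent.Helper65.EV.St

/-!
# Project EV, module POS: every initial type gets a positive frequency
-/

set_option autoImplicit false

open MeasureTheory ProbabilityTheory Set Filter
open scoped ENNReal Topology

universe u

namespace Pool.Agent.Helper75.EV

open Pool.Agent.Helper65.EV Pool.Agent.Helper84.Eve

private theorem eq_zero_of_le {x : ℝ≥0∞} (h : ∀ n : ℕ, x ≤ 2 * (1 / ((n : ℝ≥0∞) + 1)) +
    2 / ((n : ℝ≥0∞) + 1)) : x = 0 := by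
  have h1 : Tendsto (fun n : ℕ => 2 * (1 / ((n : ℝ≥0∞) + 1)) + 2 / ((n : ℝ≥0∞) + 1)) atTop
      (𝓝 (2 * 0 + 2 * 0)) := by
    have h2 : Tendsto (fun n : ℕ => ((n : ℝ≥0∞) + 1)⁻¹) atTop (𝓝 0) := by
      have h3 := (tendsto_add_atTop_iff_nat 1).2 ENNReal.tendsto_inv_nat_nhds_zero
      simpa using h3
    refine Tendsto.add ?_ ?_
    · refine ENNReal.Tendsto.const_mul ?_ (Or.inr (by norm_num))
      simpa only [one_div] using h2
    · simp only [div_eq_mul_inv]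
      exact ENNReal.Tendsto.const_mul h2 (Or.inr (by norm_num))
  have h4 := ge_of_tendsto' h1 h
  simpa using h4

theorem hPOS (h1 : hNR.{u}) (h2 : hRA) (h3 : hRT) (h4 : hTW.{u}) : hPOS.{u} := by
  intro Λ hΛ hΛ1 hJ Ω _ P _ L ρ hρ
  have : IsFiniteMeasure Λ := hΛ.finite
  have e1 : ∀ a : ℕ, P {ω | ∀ t, 0 ≤ t → ∀ i j, L.ξ t i ω = L.ξ 0 a ω →
      L.ξ t j ω = L.ξ 0 a ω → i = j} = 0 := by
    intro a
    refine eq_zero_of_le fun n => ?_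
    have hn : ((n : ℝ≥0∞) + 1) ≠ 0 := by simp
    have hn' : ((n : ℝ≥0∞) + 1) ≠ ∞ := by simp
    have hε : (1 / ((n : ℝ≥0∞) + 1)) ≠ 0 := by
      rw [one_div]
      exact ENNReal.inv_ne_zero.2 hn'
    obtain ⟨J, t, b, s, ht, ht0, hs, hb, hH⟩ := h2 hΛ hJ a (1 / ((n : ℝ≥0∞) + 1))
      ((n : ℝ≥0∞) + 1) hε hn'
    exact h1 hΛ hΛ1 a _ _ hn hn' J t b s ht ht0 hs hb hH L
  have e2 : ∀ᵐ ω ∂P, ∀ a : ℕ, ¬ ∀ t, 0 ≤ t → ∀ i j, L.ξ t i ω = L.ξ 0 a ω →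
      L.ξ t j ω = L.ξ 0 a ω → i = j := by
    rw [ae_all_iff]
    intro a
    rw [ae_iff]
    simpa only [not_not] using e1 a
  have e3 : ∀ᵐ ω ∂P, ∀ q : ℚ, 0 ≤ (q : ℝ) → ∀ i j, i ≠ j → L.ξ q i ω = L.ξ q j ω →
      0 < ρ q ω {L.ξ q i ω} := by
    rw [ae_all_iff]
    intro q
    by_cases hq : 0 ≤ (q : ℝ)
    · filter_upwards [h4 hΛ L q hq (ρ q) (hρ q hq)] with ω hω _
      exact hω
    · exact Eventually.of_forall fun ω h => absurd h hq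
  have e4 : ∀ᵐ ω ∂P, GoodA (L.N ω) := ae_goodA L.poisson hΛ.supp hΛ.m1_ne_top
  filter_upwards [e2, e3, e4, L.ae_dyn] with ω w2 w3 w4 w5
  intro a
  have w := w2 a
  push Not at w
  obtain ⟨t, ht, i, j, hi, hj, hij⟩ := w
  obtain ⟨q, hq, hk⟩ := h3 w5 w4 t ht (max i j)
  have hq0 : 0 ≤ (q : ℝ) := ht.trans hq.le
  refine ⟨q, hq0, ?_⟩
  have k1 := hk i (le_max_left _ _)
  have k2 := hk j (le_max_right _ _)
  have k3 := w3 q hq0 i j hij (by rw [k1, k2, hi, hj])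
  rw [k1, hi] at k3
  exact k3

end Pool.Agent.Helper75.EV
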